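import Pool.Agent.Helper19.SQ.GoalsB

set_option autoImplicit false

namespace Pool.Agent.Helper69.SQ

open Pool.Agent.Helper19.SQ Pool.Agent.Helper41.SQ

/-- `S` is the logarithmic derivative of `U` -/
def LD (U : (PowerSeries ℂ)ˣ) (S : PowerSeries ℂ) : Prop :=
  PowerSeries.X * PowerSeries.derivative ℂ (U : PowerSeries ℂ) = S * (U : PowerSeries ℂ)

theorem LD.one : LD 1 0 := by
  unfold LD
  rw [Units.val_one, Derivation.map_one_eq_zero, mul_zero, zero_mul]

theorem LD.mul {U V : (PowerSeries ℂ)ˣ} {S T : PowerSeries ℂ} (h1 : LD U S) (h2 : LD V T) :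
    LD (U * V) (S + T) := by
  unfold LD at *
  rw [Units.val_mul, Derivation.leibniz, smul_eq_mul, smul_eq_mul]
  linear_combination (V : PowerSeries ℂ) * h1 + (U : PowerSeries ℂ) * h2

theorem LD.inv {U : (PowerSeries ℂ)ˣ} {S : PowerSeries ℂ} (h1 : LD U S) : LD U⁻¹ (-S) := by
  unfold LD at *
  have h2 : (U : PowerSeries ℂ) * ((U⁻¹ : (PowerSeries ℂ)ˣ) : PowerSeries ℂ) = 1 := U.mul_inv
  have h3 := congrArg (PowerSeries.derivative ℂ) h2
  rw [Derivation.leibniz, smul_eq_mul, smul_eq_mul, Derivation.map_one_eq_zero] at h3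
  set u := (U : PowerSeries ℂ)
  set v := ((U⁻¹ : (PowerSeries ℂ)ˣ) : PowerSeries ℂ)
  linear_combination (-(v * v)) * h1 + (v * PowerSeries.X) * h3
    + (-(S * v) - PowerSeries.X * PowerSeries.derivative ℂ v) * h2

theorem LD.zpow {U : (PowerSeries ℂ)ˣ} {S : PowerSeries ℂ} (h1 : LD U S) (n : ℤ) :
    LD (U ^ n) ((n : PowerSeries ℂ) * S) := by
  have hn : ∀ n : ℕ, LD (U ^ n) ((n : PowerSeries ℂ) * S) := by
    intro n
    induction n with
    | zero =>
      rw [pow_zero, Nat.cast_zero, zero_mul]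
      exact LD.one
    | succ n ih =>
      rw [pow_succ, Nat.cast_succ, add_mul, one_mul]
      exact ih.mul h1
  rcases Int.eq_nat_or_neg n with ⟨k, hk | hk⟩
  · rw [hk, zpow_natCast, Int.cast_natCast]
    exact hn k
  · rw [hk, zpow_neg, zpow_natCast, Int.cast_neg, Int.cast_natCast, neg_mul]
    exact (hn k).inv

theorem LD.prod {ι : Type} (s : Finset ι) (U : ι → (PowerSeries ℂ)ˣ) (S : ι → PowerSeries ℂ)
    (h : ∀ i ∈ s, LD (U i) (S i)) : LD (∏ i ∈ s, U i) (∑ i ∈ s, S i) := by
  classical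
  induction s using Finset.induction_on with
  | empty =>
    rw [Finset.prod_empty, Finset.sum_empty]
    exact LD.one
  | insert a s ha ih =>
    rw [Finset.prod_insert ha, Finset.sum_insert ha]
    exact (h a (Finset.mem_insert_self a s)).mul (ih fun i hi => h i (Finset.mem_insert_of_mem hi))

theorem LD.lin (a : ℂ) : LD (linU a) (PowerSeries.mk fun k => if k = 0 then 0 else -a ^ k) := by
  unfold LD
  change PowerSeries.X * PowerSeries.derivative ℂ (1 - PowerSeries.C a * PowerSeries.X) =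
    _ * (1 - PowerSeries.C a * PowerSeries.X)
  have hd : PowerSeries.derivative ℂ (1 - PowerSeries.C a * PowerSeries.X) = - PowerSeries.C a := by
    rw [map_sub, Derivation.map_one_eq_zero, Derivation.leibniz, PowerSeries.derivative_X,
      PowerSeries.derivative_C, smul_eq_mul, smul_zero, mul_one, add_zero, zero_sub]
  rw [hd]
  set M : PowerSeries ℂ := PowerSeries.mk fun k => if k = 0 then 0 else -a ^ k with hM
  have e : M * (1 - PowerSeries.C a * PowerSeries.X) = M - PowerSeries.C a * (PowerSeries.X * M) := by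
    ring
  rw [e]
  ext n
  rw [map_sub, PowerSeries.coeff_C_mul]
  cases n with
  | zero =>
    rw [PowerSeries.coeff_zero_X_mul, PowerSeries.coeff_zero_X_mul, hM, PowerSeries.coeff_mk]
    simp
  | succ n =>
    rw [PowerSeries.coeff_succ_X_mul, PowerSeries.coeff_succ_X_mul, hM,
      PowerSeries.coeff_mk, PowerSeries.coeff_mk, if_neg (Nat.succ_ne_zero n), map_neg,
      PowerSeries.coeff_C]
    cases n with
    | zero => simp
    | succ n =>
      rw [if_neg (Nat.succ_ne_zero n), if_neg (Nat.succ_ne_zero n), pow_succ a (n + 1)]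
      ring

theorem b_bder : Pool.Agent.Helper19.SQ.S_BDER := by
  intro l _ q m
  have h : LD (Bser q m) (∑ c : ZMod l, (((m c - m (c + 1) : ℤ)) : PowerSeries ℂ) *
      (PowerSeries.mk fun k => if k = 0 then 0 else -(qz q (2 * c)) ^ k)) := by
    unfold Bser
    exact LD.prod _ _ _ fun c _ => (LD.lin (qz q (2 * c))).zpow _
  unfold LD at h
  rw [h]
  congr 1
  ext k
  rw [map_sum, PowerSeries.coeff_mk]
  have e : ∀ c : ZMod l, PowerSeries.coeff k ((((m c - m (c + 1) : ℤ)) : PowerSeries ℂ) *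
      (PowerSeries.mk fun k => if k = 0 then 0 else -(qz q (2 * c)) ^ k)) =
      ((m c - m (c + 1) : ℤ) : ℂ) * (if k = 0 then 0 else -(qz q (2 * c)) ^ k) := by
    intro c
    rw [← zsmul_eq_mul, map_zsmul, PowerSeries.coeff_mk, zsmul_eq_mul]
  rw [Finset.sum_congr rfl fun c _ => e c]
  by_cases hk : k = 0
  · subst hk
    rw [pim_zero]
    simp
  · unfold pim
    refine Finset.sum_congr rfl fun c _ => ?_
    rw [if_neg hk]
    push_cast
    ring

end Pool.Agent.Helper69.SQ
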