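import Pool.Agent.Helper19.SQ.GoalsB

set_option autoImplicit false

namespace Pool.Agent.Helper69.SQ

open Pool.Agent.Helper19.SQ Pool.Agent.Helper41.SQ

theorem b_beval (h1 : Pool.Agent.Helper34.SQ.S_CORE0) (h2 : Pool.Agent.Helper19.SQ.S_HC)
    (h3 : Pool.Agent.Helper19.SQ.S_EVAL) (h4 : Pool.Agent.Helper19.SQ.S_BUNIQ) :
    Pool.Agent.Helper19.SQ.S_BEVAL := by
  intro N l _ q D hl s C hpar hinj hC k M _ _ _ _ lam v hv
  by_cases hv0 : v = 0
  · rw [hv0, smul_zero, smul_zero]
  obtain ⟨-, -, -, -, -, -, hbc, hβc, hbφ, hβφ, hrel, -, -⟩ := h1 (A N l q) (Fin (N + 1)) C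
  have hb : ∀ k, ∃ c : ℂ, C.b k • v = c • v := by
    intro k
    have e : tor N l q hl s (C.b k) = C.b k := by
      rw [← hC.φ]
      exact hbφ k
    obtain ⟨c, hc⟩ := h2 N l q hl hpar s hinj (C.b k) e
    exact ⟨c lam, hc M lam v hv⟩
  have hβ : ∀ k, ∃ c : ℂ, C.β k • v = c • v := by
    intro k
    have e : tor N l q hl s (C.β k) = C.β k := by
      rw [← hC.φ]
      exact hβφ k
    obtain ⟨c, hc⟩ := h2 N l q hl hpar s hinj (C.β k) e
    exact ⟨c lam, hc M lam v hv⟩
  choose c hc using hb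
  choose c' hc' using hβ
  have hcancel : ∀ x y : ℂ, x • v = y • v → x = y := by
    intro x y h
    have : (x - y) • v = 0 := by rw [sub_smul, h, sub_self]
    rcases smul_eq_zero.1 this with h | h
    · exact sub_eq_zero.1 h
    · exact absurd h hv0
  have hmul : ∀ r t, (C.β r * C.b t) • v = (c' r * c t) • v := by
    intro r t
    rw [mul_smul, hc t, smul_smul_comm, hc' r, smul_smul, mul_comm]
  have hrel' : ∀ k, c k = c' k + ∑ r ∈ Finset.range k, c' r * c (k - 1 - r) := by
    intro k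
    apply hcancel
    rw [← hc k, hrel k, add_smul, add_smul, hc' k, Finset.sum_smul, Finset.sum_smul]
    congr 1
    exact Finset.sum_congr rfl fun r _ => hmul r _
  have hpi : ∀ k, C.pi k • v = piv c c' k • v := by
    intro k
    cases k with
    | zero =>
      change (0 : A N l q) • v = (0 : ℂ) • v
      rw [zero_smul, zero_smul]
    | succ k =>
      change (((k : ℂ) + 1) • C.b k - ∑ r ∈ Finset.range k, ((k : ℂ) - r) • (C.β r * C.b (k - 1 - r))) • v =
        (((k : ℂ) + 1) • c k - ∑ r ∈ Finset.range k, ((k : ℂ) - r) • (c' r * c (k - 1 - r))) • v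
      rw [sub_smul, sub_smul, smul_assoc, hc k, smul_assoc, Finset.sum_smul, Finset.sum_smul]
      congr 1
      refine Finset.sum_congr rfl fun r _ => ?_
      rw [smul_assoc, smul_assoc, hmul]
  have hpi' : ∀ k, piv c c' k = pim q (ty lam) k := by
    intro k
    apply hcancel
    rw [← hpi k]
    exact h3 N l q D hl s C hpar hinj hC k M lam v hv
  rw [hc k, h4 l q (ty lam) c c' hrel' hpi' k]

end Pool.Agent.Helper69.SQ
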