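import Pool.Agent.Helper19.SQ.GoalsB

set_option autoImplicit false

namespace Pool.Agent.Helper69.SQ

open Pool.Agent.Helper19.SQ Pool.Agent.Helper41.SQ

/-- trace of an endomorphism of a finite power -/
theorem trace_pow (n : ℕ) (V : Type) [AddCommGroup V] [Module ℂ V] [FiniteDimensional ℂ V]
    (L : (Fin n → V) →ₗ[ℂ] (Fin n → V)) :
    LinearMap.trace ℂ (Fin n → V) L =
      ∑ i, LinearMap.trace ℂ V (LinearMap.proj i ∘ₗ (L ∘ₗ LinearMap.single ℂ (fun _ => V) i)) := by
  have e : L = ∑ i, (L ∘ₗ LinearMap.single ℂ (fun _ => V) i) ∘ₗ LinearMap.proj i := by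
    refine LinearMap.ext fun v => ?_
    rw [LinearMap.sum_apply]
    simp only [LinearMap.comp_apply, LinearMap.proj_apply, LinearMap.coe_single]
    rw [← map_sum]
    congr 1
    exact (Finset.univ_sum_single v).symm
  conv_lhs => rw [e]
  rw [map_sum]
  refine Finset.sum_congr rfl fun i _ => ?_
  rw [LinearMap.trace_comp_comm']

theorem b_charv : Pool.Agent.Helper19.SQ.S_CHARV := by
  intro N l q H M _ _ _ _ _
  have h1 : ∀ Y : Mat N (A N l q), LinearMap.trace ℂ (Ten H M) (actM Y) = chi M (Matrix.trace Y) := by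
    intro Y
    have e := trace_pow (N + 1) M (actM (H := H) (M := M) Y)
    have e2 : ∀ i : Fin (N + 1), (LinearMap.proj i ∘ₗ ((actM (H := H) (M := M) Y) ∘ₗ
        LinearMap.single ℂ (fun _ : Fin (N + 1) => M) i) : M →ₗ[ℂ] M) = lsm (Y i i) := by
      intro i
      refine LinearMap.ext fun x => ?_
      change ∑ j, Y i j • (Pi.single i x : Fin (N + 1) → M) j = Y i i • x
      rw [Finset.sum_eq_single i]
      · rw [Pi.single_eq_same]
      · intro j _ hj
        rw [Pi.single_eq_of_ne hj, smul_zero]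
      · intro h
        exact absurd (Finset.mem_univ i) h
    have e3 : ∑ i, LinearMap.trace ℂ M (LinearMap.proj i ∘ₗ ((actM (H := H) (M := M) Y) ∘ₗ
        LinearMap.single ℂ (fun _ : Fin (N + 1) => M) i)) = ∑ i, chiL M (Y i i) := by
      refine Finset.sum_congr rfl fun i _ => ?_
      rw [e2 i]
      rfl
    exact e.trans (e3.trans (map_sum (chiL M) _ _).symm)
  refine ⟨h1, fun a => ?_⟩
  exact h1 (H a)

end Pool.Agent.Helper69.SQ
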