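import Pool.Agent.Helper19.SQ.GoalsB

set_option autoImplicit false

namespace Pool.Agent.Helper69.SQ

theorem b_nils : Pool.Agent.Helper19.SQ.S_NILS := by
  intro R _ _ _ F hF
  have hN : IsNoetherianRing R := isNoetherian_of_isNoetherianRing_of_finite ℂ R |> fun h =>
    isNoetherian_of_tower ℂ h
  obtain ⟨J, hJ⟩ := IsNoetherianRing.isNilpotent_nilradical R
  refine ⟨J, ?_⟩
  have key : ∀ i k : ℕ, PowerSeries.coeff k (F ^ i) ∈ (nilradical R) ^ i := by
    intro i
    induction i with
    | zero =>
      intro k
      rw [pow_zero, pow_zero, Ideal.one_eq_top]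
      trivial
    | succ i ih =>
      intro k
      rw [pow_succ, pow_succ, PowerSeries.coeff_mul]
      apply Ideal.sum_mem
      intro x _
      exact Ideal.mul_mem_mul (ih x.1) (mem_nilradical.2 (hF x.2))
  ext k
  have h := key J k
  rw [hJ] at h
  simpa using h

end Pool.Agent.Helper69.SQ
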