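import Pool.Agent.Helper19.SQ.GoalsB

set_option autoImplicit false

namespace Pool.Agent.Helper69.SQ

open Pool.Agent.Helper19.SQ Pool.Agent.Helper41.SQ

theorem ty_eq {N l : ℕ} [NeZero l] (lam : Fin (N + 1) → ZMod l) (c : ZMod l) :
    ty lam c = ∑ j, if xl lam j = c then (1 : ℤ) else 0 := by
  unfold ty
  rw [Finset.card_filter]
  push_cast
  rfl

theorem sum_ty {N l : ℕ} [NeZero l] (lam : Fin (N + 1) → ZMod l) (F : ZMod l → ℂ) :
    ∑ j, F (xl lam j) = ∑ c, (ty lam c : ℂ) * F c := by
  simp_rw [ty_eq]
  push_cast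
  simp_rw [Finset.sum_mul]
  rw [Finset.sum_comm]
  refine Finset.sum_congr rfl fun j _ => ?_
  rw [Finset.sum_eq_single (xl lam j)]
  · simp
  · intro c _ hc
    rw [if_neg (fun h => hc h.symm), zero_mul]
  · intro h
    exact absurd (Finset.mem_univ _) h

theorem b_typ : Pool.Agent.Helper19.SQ.S_TYP := by
  intro N l _ q hpar lam
  have : Fact (1 < l) := ⟨by have := hpar.h3; omega⟩
  refine ⟨?_, ?_, ?_, ?_, ?_⟩
  · rw [mem_typs]
    refine ⟨fun c => ?_, ?_⟩
    · unfold ty
      exact Int.natCast_nonneg _
    · simp_rw [ty_eq]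
      rw [Finset.sum_comm]
      simp
  · intro j
    funext c
    rw [Pi.sub_apply, ty_eq, ty_eq, ← Finset.add_sum_erase _ _ (Finset.mem_univ j),
      ← Finset.add_sum_erase (a := j) (f := fun j => if xl lam j = c then (1 : ℤ) else 0) _ (Finset.mem_univ j)]
    have e : ∀ i ∈ Finset.univ.erase j, (if xl (addE lam j) i = c then (1 : ℤ) else 0) =
        if xl lam i = c then (1 : ℤ) else 0 := by
      intro i hi
      have : xl (addE lam j) i = xl lam i := by
        simp only [xl, addE, if_neg (Finset.ne_of_mem_erase hi), add_zero]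
      rw [this]
    rw [Finset.sum_congr rfl e]
    have e2 : xl (addE lam j) j = xl lam j + 1 := by
      simp only [xl, addE, if_true]
      ring
    rw [e2]
    simp only [al]
    rw [if_congr (eq_comm (a := xl lam j + 1) (b := c)) rfl rfl,
      if_congr (eq_comm (a := xl lam j) (b := c)) rfl rfl]
    ring
  · intro j
    funext c
    rw [Pi.add_apply, ty_eq, ty_eq, ← Finset.add_sum_erase _ _ (Finset.mem_univ j),
      ← Finset.add_sum_erase (a := j) (f := fun j => if xl lam j = c then (1 : ℤ) else 0) _ (Finset.mem_univ j)]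
    have e : ∀ i ∈ Finset.univ.erase j, (if xl (subE lam j) i = c then (1 : ℤ) else 0) =
        if xl lam i = c then (1 : ℤ) else 0 := by
      intro i hi
      have : xl (subE lam j) i = xl lam i := by
        simp only [xl, subE, if_neg (Finset.ne_of_mem_erase hi), sub_zero]
      rw [this]
    rw [Finset.sum_congr rfl e]
    have e2 : xl (subE lam j) j = xl lam j - 1 := by
      simp only [xl, subE, if_true]
      ring
    rw [e2]
    simp only [al]
    rw [sub_add_cancel, if_congr (eq_comm (a := xl lam j - 1) (b := c)) rfl rfl,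
      if_congr (eq_comm (a := xl lam j) (b := c)) rfl rfl]
    ring
  · intro c c' h
    by_contra hne
    have h1 := congrFun h c
    simp only [al] at h1
    rw [if_pos trivial, if_neg hne] at h1
    have h2 : c ≠ c + 1 := by
      intro h3
      have : (1 : ZMod l) = 0 := by
        have := congrArg (fun t => t - c) h3
        simpa using this.symm
      exact one_ne_zero this
    rw [if_neg h2] at h1
    split_ifs at h1 <;> omega
  · intro k
    rw [Finset.sum_sub_distrib]
    rw [sum_ty lam (fun c => qz q (2 * (c - 1)) ^ k), sum_ty lam (fun c => qz q (2 * c) ^ k)]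
    unfold pim
    have e : ∑ c : ZMod l, (ty lam c : ℂ) * qz q (2 * (c - 1)) ^ k =
        ∑ c : ZMod l, (ty lam (c + 1) : ℂ) * qz q (2 * c) ^ k := by
      rw [← Equiv.sum_comp (Equiv.addRight (1 : ZMod l))]
      refine Finset.sum_congr rfl fun c _ => ?_
      simp only [Equiv.coe_addRight, add_sub_cancel_right]
    rw [e, ← Finset.sum_sub_distrib]
    refine Finset.sum_congr rfl fun c _ => ?_
    push_cast
    ring

end Pool.Agent.Helper69.SQ
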