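import Pool.Agent.Helper39.SQ.Goals

/-!
# MP_9b2a83_an: packet SQ-METRIC (adapted from `Pool/Agent/Helper8/SN/METRIC.lean`)
-/

namespace Pool.Agent.Helper69.SQ.PkMETRIC

open Pool.Agent.Helper39.SQ Pool.Agent.Helper71.SN Pool.Agent.Helper39.Net

theorem thm : Pool.Agent.Helper39.SQ.G_CORE → Pool.Agent.Helper39.SQ.G_METRIC := by
  classical
  intro hcore d D N h K g θ hd hh hθ hcnt M P hC E ρ pt η R c hη hc hcR hρ0 hρp hρR h4 T hT m hE
  obtain ⟨V, hV, G, w, hG, hw, hm, f0, s, hs, hf⟩ := hE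
  let f : Pt d → V := fun x => f0 (pt x)
  have hlow : ∀ x ∈ M, ∀ y ∈ M, s * ρ (pt x) (pt y) ≤ gdist G w (f x) (f y) :=
    fun x hx y hy => (hf _ (hT x hx) _ (hT y hy)).1
  have hup : ∀ p ∈ P, gdist G w (f p.1) (f p.2) < s * (ρ (pt p.1) (pt p.2) + η / 2) := by
    intro p hp
    refine lt_of_le_of_lt (hf _ (hT _ (hC.mem1 p hp)) _ (hT _ (hC.mem2 p hp))).2 ?_
    have h1 : (c - 1) * ρ (pt p.1) (pt p.2) ≤ (c - 1) * R :=
      mul_le_mul_of_nonneg_left (hρR p hp) (by linarith)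
    have h2 : c * ρ (pt p.1) (pt p.2) < ρ (pt p.1) (pt p.2) + η / 2 := by linarith
    calc c * (s * ρ (pt p.1) (pt p.2)) = s * (c * ρ (pt p.1) (pt p.2)) := by ring
      _ < _ := mul_lt_mul_of_pos_left h2 hs
  have hwalk : ∀ p : Pt d × Pt d, ∃ W : G.Walk (f p.1) (f p.2),
      p ∈ P → walkLen w W < s * (ρ (pt p.1) (pt p.2) + η / 2) := by
    intro p
    have hne : Nonempty (G.Walk (f p.1) (f p.2)) := hG.preconnected _ _
    by_cases hp : p ∈ P
    · obtain ⟨W, hW⟩ := exists_lt_of_ciInf_lt (hup p hp)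
      exact ⟨W, fun _ => hW⟩
    · exact ⟨hne.some, fun h => absurd h hp⟩
  choose W hW using hwalk
  have hsplit : ∀ (u v z : V) (p : G.Walk u v) (hz : z ∈ p.support),
      walkLen w (p.takeUntil z hz) + walkLen w (p.dropUntil z hz) = walkLen w p := by
    intro u v z p hz
    rw [← walkLen_append, SimpleGraph.Walk.take_spec]
  have hmain := hcore d D N h K g θ hd hh hθ hcnt M P hC V hV G f W ?_ ?_ ?_
  · exact le_trans hmain (Nat.mul_le_mul_left _ hm)
  · -- injectivity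
    intro x hx x' hx' hfx
    have hx : x ∈ M := hx
    have hx' : x' ∈ M := hx'
    by_contra hne
    have h1 := hlow x hx x' hx'
    have hfx' : f x = f x' := hfx
    rw [hfx', gdist_self hw] at h1
    have h3 : ρ (pt x) (pt x') ≤ 0 := nonpos_of_mul_nonpos_right h1 hs
    exact absurd (hρp x hx x' hx' hne) (not_lt.mpr h3)
  · -- a common vertex
    intro p hp q hq v hvp hvq
    by_contra hcon
    have h1 := h4 p.1 (hC.mem1 p hp) p.2 (hC.mem2 p hp) q.1 (hC.mem1 q hq) q.2 (hC.mem2 q hq)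
      (Or.inr (hC.lt p hp)) (Or.inr (hC.lt q hq)) (not_le.mp hcon)
    have h2 := (hlow p.1 (hC.mem1 p hp) q.2 (hC.mem2 q hq)).trans
      (gdist_le hw (((W p).takeUntil v hvp).append ((W q).dropUntil v hvq)))
    have h3 := (hlow q.1 (hC.mem1 q hq) p.2 (hC.mem2 p hp)).trans
      (gdist_le hw (((W q).takeUntil v hvq).append ((W p).dropUntil v hvp)))
    rw [walkLen_append] at h2 h3
    have h5 := hsplit _ _ v (W p) hvp
    have h6 := hsplit _ _ v (W q) hvq
    have h7 := hW p hp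
    have h8 := hW q hq
    have h9 : s * (ρ (pt p.1) (pt p.2) + ρ (pt q.1) (pt q.2) + η) ≤
        s * (ρ (pt p.1) (pt q.2) + ρ (pt q.1) (pt p.2)) := mul_le_mul_of_nonneg_left h1 hs.le
    linarith
  · -- a point on a walk
    intro x hx q hq hxq
    have h1 : s * (ρ (pt q.1) (pt x) + ρ (pt x) (pt q.2)) < s * (ρ (pt q.1) (pt q.2) + η / 2) := by
      have h2 := (hlow q.1 (hC.mem1 q hq) x hx).trans (gdist_le hw ((W q).takeUntil (f x) hxq))
      have h3 := (hlow x hx q.2 (hC.mem2 q hq)).trans (gdist_le hw ((W q).dropUntil (f x) hxq))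
      have h5 := hsplit _ _ (f x) (W q) hxq
      have h6 := hW q hq
      linarith
    have h2 := lt_of_mul_lt_mul_left h1 hs.le
    by_contra hcon
    have h3 := h4 x hx x hx q.1 (hC.mem1 q hq) q.2 (hC.mem2 q hq) (Or.inl rfl)
      (Or.inr (hC.lt q hq)) (not_le.mp hcon)
    rw [hρ0 x hx] at h3
    linarith

end Pool.Agent.Helper69.SQ.PkMETRIC
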